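import Pool.Agent.H577R3.RM.Stmts

set_option autoImplicit false

namespace Pool.Agent.H532R3.RM.STEP

open Pool.Agent.Helper777.Prof Pool.Agent.H577R3 Pool.Agent.H577R3.RM Filter Topology

lemma At_lt {n ℓ b : ℕ} {w : Fin ℓ → Lt n} {s : ℕ} {c : Fin b → Lt n} (hb : 0 < b)
    (h : At w s c) : s < ℓ := by
  obtain ⟨h1, _⟩ := h ⟨0, hb⟩
  simpa using h1

lemma win_mem_TW {n ℓ : ℕ} {k k' : Fin n} {w : Fin ℓ → Lt n} {t : ℕ} (h : Win k k' w t) :
    t ∈ TW k k' w := by
  classical
  unfold TW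
  rw [Finset.mem_filter, Finset.mem_range]
  refine ⟨?_, h⟩
  rcases h with h | h
  · have := At_lt (by norm_num) h
    omega
  · have := At_lt (by norm_num) h
    omega

/-- transfer between points with the same kernel -/
lemma ind_transfer (h5 : TaskMIN) {n ℓ m : ℕ} (r : Fin m → Fin ℓ → Lt n) (j : ℕ)
    (I : Finset (Fin n)) (K : Type) [Field K] (θ : Fin n → Kˣ) (K' : Type) [Field K']
    (θ' : Fin n → K'ˣ) (hker : RingHom.ker (evl θ) = RingHom.ker (evl θ')) :
    Ind r θ j I → Ind r θ' j I := by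
  have e1 := h5 K n m j (fun l x => evl θ (fox (r l) x)) I
  have e2 := h5 K' n m j (fun l x => evl θ' (fox (r l) x)) I
  unfold Ind
  intro h
  rw [e1] at h
  rw [e2]
  obtain ⟨a, ha, hdet⟩ := h
  refine ⟨a, ha, ?_⟩
  intro h0
  apply hdet
  have d1 : Matrix.det (Matrix.of fun l l' : {l : Fin m // l.1 < j} =>
      evl θ (fox (r l.1) (a l'))) = evl θ (Matrix.det (Matrix.of fun l l' :
        {l : Fin m // l.1 < j} => fox (r l.1) (a l'))) := by
    rw [RingHom.map_det]
    rfl
  have d2 : Matrix.det (Matrix.of fun l l' : {l : Fin m // l.1 < j} =>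
      evl θ' (fox (r l.1) (a l'))) = evl θ' (Matrix.det (Matrix.of fun l l' :
        {l : Fin m // l.1 < j} => fox (r l.1) (a l'))) := by
    rw [RingHom.map_det]
    rfl
  rw [d2] at h0
  rw [d1]
  have h1 : (Matrix.det (Matrix.of fun l l' : {l : Fin m // l.1 < j} => fox (r l.1) (a l'))) ∈
      RingHom.ker (evl θ') := h0
  rw [← hker] at h1
  exact h1

/-- adding one row -/
lemma ind_succ {n ℓ m : ℕ} (r : Fin m → Fin ℓ → Lt n) (j : Fin m) (w' : Fin ℓ → Lt n)
    (I : Finset (Fin n)) (K : Type) [Field K] (θ : Fin n → Kˣ) (z : Fin n → K)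
    (hz : ∀ x, x ∉ I → z x = 0)
    (horth : ∀ l : Fin m, l.1 < j.1 → ∑ x, z x * evl θ (fox (r l) x) = 0)
    (hs : ∑ x, z x * evl θ (fox w' x) ≠ 0) (hI : Ind r θ j.1 I) :
    Ind (Function.update r j w') θ (j.1 + 1) I := by
  classical
  unfold Ind at hI ⊢
  rw [Fintype.linearIndependent_iff] at hI ⊢
  intro g hg
  have hpt : ∀ x : Fin n, x ∈ I → ∑ l : {l : Fin m // l.1 < j.1 + 1},
      g l * evl θ (fox (Function.update r j w' l.1) x) = 0 := by
    intro x hx
    have := congrFun hg ⟨x, hx⟩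
    simpa [Finset.sum_apply, Pi.smul_apply, smul_eq_mul] using this
  have hpair : ∑ l : {l : Fin m // l.1 < j.1 + 1},
      g l * (∑ x, z x * evl θ (fox (Function.update r j w' l.1) x)) = 0 := by
    calc ∑ l : {l : Fin m // l.1 < j.1 + 1},
        g l * (∑ x, z x * evl θ (fox (Function.update r j w' l.1) x))
        = ∑ x, z x * ∑ l : {l : Fin m // l.1 < j.1 + 1},
            g l * evl θ (fox (Function.update r j w' l.1) x) := by
          simp_rw [Finset.mul_sum]
          rw [Finset.sum_comm]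
          refine Finset.sum_congr rfl fun x _ => Finset.sum_congr rfl fun l _ => ?_
          ring
      _ = 0 := by
          apply Finset.sum_eq_zero
          intro x _
          by_cases hx : x ∈ I
          · rw [hpt x hx, mul_zero]
          · rw [hz x hx, zero_mul]
  have hj' : j.1 < j.1 + 1 := Nat.lt_succ_self _
  have hgj : g ⟨j, hj'⟩ = 0 := by
    rw [Finset.sum_eq_single (⟨j, hj'⟩ : {l : Fin m // l.1 < j.1 + 1})] at hpair
    · simp only [Function.update_self] at hpair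
      exact (mul_eq_zero.1 hpair).resolve_right hs
    · intro l _ hl
      have hne : l.1 ≠ j := fun h => hl (Subtype.ext h)
      have hlt : l.1.1 < j.1 := by
        have h1 := l.2
        have h2 : l.1.1 ≠ j.1 := fun h => hne (Fin.ext h)
        omega
      rw [Function.update_of_ne hne, horth l.1 hlt, mul_zero]
    · intro h
      exact absurd (Finset.mem_univ _) h
  have hg' := hI (fun l => g ⟨l.1, Nat.lt_succ_of_lt l.2⟩) (by
    funext x
    have h1 := hpt x.1 x.2
    simp only [Finset.sum_apply, Pi.smul_apply, smul_eq_mul, Pi.zero_apply]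
    rw [← h1]
    apply Fintype.sum_of_injective
      (fun l : {l : Fin m // l.1 < j.1} => (⟨l.1, Nat.lt_succ_of_lt l.2⟩ :
        {l : Fin m // l.1 < j.1 + 1}))
    · intro a b hab
      simp only [Subtype.mk.injEq] at hab
      exact Subtype.ext hab
    · intro l hl
      have hlj : l.1 = j := by
        by_contra hne
        apply hl
        have hlt : l.1.1 < j.1 := by
          have h1 := l.2
          have h2 : l.1.1 ≠ j.1 := fun h => hne (Fin.ext h)
          omega
        exact ⟨⟨l.1, hlt⟩, rfl⟩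
      have : l = ⟨j, hj'⟩ := Subtype.ext hlj
      rw [this, hgj, zero_mul]
    · intro l
      have hne : l.1 ≠ j := by
        intro h
        have := l.2
        rw [h] at this
        omega
      simp only
      rw [Function.update_of_ne hne])
  intro l
  by_cases hlj : l.1 = j
  · have : l = ⟨j, hj'⟩ := Subtype.ext hlj
    rw [this, hgj]
  · have hlt : l.1.1 < j.1 := by
      have h1 := l.2
      have h2 : l.1.1 ≠ j.1 := fun h => hlj (Fin.ext h)
      omega
    exact hg' ⟨l.1, hlt⟩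

/-- the bound for one point -/
lemma one_point (h1 : TaskVAL) (h3 : TaskFXB) (h4 : TaskFOXW) {n ℓ m S0 : ℕ} (k k' : Fin n)
    (r : Fin m → Fin ℓ → Lt n) (j : Fin m) (I : Finset (Fin n)) (hkk : k ≠ k')
    (hAt : ∀ t, ¬ At (r j) (6 * t + 1) (c1 k k')) (hSpr : Spr S0 k k' (r j))
    (K : Type) [Field K] (θ : Fin n → Kˣ) (hT : Trs θ) (hI : Ind r θ j.1 I) (z : Fin n → K)
    (hz : ∀ x, x ∉ I → z x = 0)
    (horth : ∀ l : Fin m, l.1 < j.1 → ∑ x, z x * evl θ (fox (r l) x) = 0)
    (hne : ((θ k' : K) - 1) * z k - ((θ k : K) - 1) * z k' ≠ 0) :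
    Nat.card {S : Finset ℕ // S ⊆ TW k k' (r j) ∧
      ¬ Ind (Function.update r j (put k k' S (r j))) θ (j.1 + 1) I} * 2 ^ S0 ≤
      2 ^ (TW k k' (r j)).card := by
  classical
  obtain ⟨Γ, i1, i2, i3, lam, hlam, hval⟩ := h1 n K θ hT
  obtain ⟨T, hTc, hTW, hTinj⟩ := hSpr Γ lam hlam
  have hsub : T ⊆ TW k k' (r j) := fun t ht => win_mem_TW (hTW t ht)
  have hb := h3 n ℓ k k' (r j) T K θ z hkk hAt hsub hne (fun ε hε hsum =>
    hval T (fun t => Multiplicative.ofAdd (pos (r j) (6 * t + 1))) ε hε hTinj hsum)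
  rw [hTc] at hb
  refine le_trans (Nat.mul_le_mul_right _ ?_) hb
  have hfin : Finite {S : Finset ℕ // S ⊆ TW k k' (r j) ∧
      der θ z (put k k' S (r j)) = 0} := by
    apply Finite.of_injective (β := {S // S ∈ (TW k k' (r j)).powerset})
      (fun S => ⟨S.1, Finset.mem_powerset.mpr S.2.1⟩)
    intro a b hab
    simp only [Subtype.mk.injEq] at hab
    exact Subtype.ext hab
  apply Nat.card_le_card_of_injective
    (fun S : {S : Finset ℕ // S ⊆ TW k k' (r j) ∧
      ¬ Ind (Function.update r j (put k k' S (r j))) θ (j.1 + 1) I} =>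
      (⟨S.1, S.2.1, by
        by_contra hne0
        apply S.2.2
        apply ind_succ r j _ I K θ z hz horth _ hI
        rwa [← (h4 n ℓ (put k k' S.1 (r j))).2.2.1 K θ z]⟩ :
        {S : Finset ℕ // S ⊆ TW k k' (r j) ∧ der θ z (put k k' S (r j)) = 0}))
  intro a b hab
  simp only [Subtype.mk.injEq] at hab
  exact Subtype.ext hab

lemma card_sub (W : Finset ℕ) (Q : Finset ℕ → Prop) [DecidablePred Q] :
    Nat.card {S : Finset ℕ // S ⊆ W ∧ Q S} = (W.powerset.filter Q).card := by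
  apply Nat.subtype_card
  intro S
  rw [Finset.mem_filter, Finset.mem_powerset]

theorem taskSTEP (h1 : TaskVAL) (_h2 : TaskFX) (h3 : TaskFXB) (h4 : TaskFOXW) (h5 : TaskMIN) :
    TaskSTEP := by
  intro n ℓ m S0 k k' r j I TT P hkk hAt hSpr hP
  classical
  set W := TW k k' (r j) with hW
  let Bq : Ideal (Lam n) → Finset (Finset ℕ) := fun q => W.powerset.filter (fun S =>
    ∃ (K : Type) (_ : Field K) (θ : Fin n → Kˣ), P K θ ∧ RingHom.ker (evl θ) = q ∧
      ¬ Ind (Function.update r j (put k k' S (r j))) θ (j.1 + 1) I)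
  have hBq : ∀ q, (Bq q).card * 2 ^ S0 ≤ 2 ^ W.card := by
    intro q
    by_cases hq : ∃ (K : Type) (_ : Field K) (θ : Fin n → Kˣ), P K θ ∧ RingHom.ker (evl θ) = q
    · obtain ⟨K0, i0, θ0, hP0, hk0⟩ := hq
      obtain ⟨-, hT, hI, z, hz, horth, hne⟩ := hP K0 θ0 hP0
      have hone := one_point h1 h3 h4 k k' r j I hkk hAt hSpr K0 θ0 hT hI z hz horth hne
      rw [card_sub] at hone
      refine le_trans (Nat.mul_le_mul_right _ (Finset.card_le_card ?_)) hone
      intro S hS
      rw [Finset.mem_filter] at hS ⊢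
      refine ⟨hS.1, ?_⟩
      obtain ⟨K, iK, θ, _, hk, hni⟩ := hS.2
      intro hi0
      exact hni (ind_transfer h5 _ _ I K0 θ0 K θ (hk0.trans hk.symm) hi0)
    · have : Bq q = ∅ := by
        rw [Finset.eq_empty_iff_forall_notMem]
        intro S hS
        rw [Finset.mem_filter] at hS
        obtain ⟨K, iK, θ, hp, hk, _⟩ := hS.2
        exact hq ⟨K, iK, θ, hp, hk⟩
      rw [this]
      simp
  rw [card_sub]
  have hcov : W.powerset.filter (fun S => ∃ (K : Type) (_ : Field K) (θ : Fin n → Kˣ),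
      P K θ ∧ ¬ Ind (Function.update r j (put k k' S (r j))) θ (j.1 + 1) I) ⊆ TT.biUnion Bq := by
    intro S hS
    rw [Finset.mem_filter] at hS
    obtain ⟨hSW, K, iK, θ, hp, hni⟩ := hS
    rw [Finset.mem_biUnion]
    refine ⟨RingHom.ker (evl θ), (hP K θ hp).1, ?_⟩
    rw [Finset.mem_filter]
    exact ⟨hSW, K, iK, θ, hp, rfl, hni⟩
  calc (W.powerset.filter (fun S => ∃ (K : Type) (_ : Field K) (θ : Fin n → Kˣ),
      P K θ ∧ ¬ Ind (Function.update r j (put k k' S (r j))) θ (j.1 + 1) I)).card * 2 ^ S0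
      ≤ (TT.biUnion Bq).card * 2 ^ S0 := Nat.mul_le_mul_right _ (Finset.card_le_card hcov)
    _ ≤ (∑ q ∈ TT, (Bq q).card) * 2 ^ S0 := Nat.mul_le_mul_right _ Finset.card_biUnion_le
    _ = ∑ q ∈ TT, (Bq q).card * 2 ^ S0 := by rw [Finset.sum_mul]
    _ ≤ ∑ _q ∈ TT, 2 ^ W.card := Finset.sum_le_sum fun q _ => hBq q
    _ = TT.card * 2 ^ W.card := by rw [Finset.sum_const, smul_eq_mul]

end Pool.Agent.H532R3.RM.STEP
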